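import Pool.Agent.Helper62.MU.St

/-!
# Module QN of project MU (MP_ae3a4d_gt): the reflection inequality
-/

set_option autoImplicit false

open MeasureTheory Metric Set Filter Topology Polynomial
open scoped RealInnerProductSpace ContDiff

namespace Pool.Agent.Helper17.MU

open Pool.Agent.Helper62.MU Pool.Agent.Helper62.Mink
open Pool.Agent.Helper62.Mink.Nec

/-- the embedding `z ↦ consE 0 z` -/
noncomputable def cL (m : ℕ) : E m →L[ℝ] E (m + 1) :=
  LinearMap.toContinuousLinearMap
    { toFun := fun z => consE 0 z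
      map_add' := fun a b => by
        ext i
        refine Fin.cases ?_ (fun j => ?_) i <;> simp
      map_smul' := fun c a => by
        ext i
        refine Fin.cases ?_ (fun j => ?_) i <;> simp }

lemma cL_apply {m : ℕ} (z : E m) : cL m z = consE 0 z := rfl

lemma consE_eq {m : ℕ} (x : ℝ) (z : E (m + 1)) : consE x z = x • po m + cL (m + 1) z := by
  ext i
  refine Fin.cases ?_ (fun j => ?_) i
  · simp [cL_apply, po]
  · simp [cL_apply, po]

lemma consE_ne {m : ℕ} {x : ℝ} (hx : 0 < x) (z : E (m + 1)) : consE x z ≠ 0 := by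
  intro h
  have h1 : consE x z 0 = 0 := by rw [h]; rfl
  rw [consE_zero] at h1
  exact hx.ne' h1

lemma consE_contDiff {m : ℕ} (x : ℝ) : ContDiff ℝ ∞ (fun z : E (m + 1) => consE x z) := by
  have : (fun z : E (m + 1) => consE x z) = fun z => x • po m + cL (m + 1) z := by
    funext z; exact consE_eq x z
  rw [this]
  exact contDiff_const.add (cL (m + 1)).contDiff

lemma fderiv_phi {m : ℕ} {h : E (m + 2) → ℝ} (hC : ContDiffOn ℝ ∞ h {0}ᶜ) {x : ℝ} (hx : 0 < x)
    (z v : E (m + 1)) :
    fderiv ℝ (fun z : E (m + 1) => h (consE x z)) z v = fderiv ℝ h (consE x z) (cL (m + 1) v) := by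
  have h1 : HasFDerivAt (fun z : E (m + 1) => consE x z) (cL (m + 1)) z := by
    have : (fun z : E (m + 1) => consE x z) = fun z => x • po m + cL (m + 1) z := by
      funext z; exact consE_eq x z
    rw [this]
    exact (cL (m + 1)).hasFDerivAt.const_add _
  have h2 : HasFDerivAt h (fderiv ℝ h (consE x z)) (consE x z) :=
    ((cda hC (consE_ne hx z)).differentiableAt (by simp)).hasFDerivAt
  have h3 := h2.comp z h1
  have h4 : fderiv ℝ (fun z : E (m + 1) => h (consE x z)) z
      = (fderiv ℝ h (consE x z)).comp (cL (m + 1)) := h3.fderiv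
  rw [h4]; rfl

lemma cont_grad {m : ℕ} {h : E (m + 2) → ℝ} (hC : ContDiffOn ℝ ∞ h {0}ᶜ) {x : ℝ} (hx : 0 < x) :
    Continuous (fun z : E (m + 1) => fderiv ℝ h (consE x z)) := by
  have h1 : ContinuousOn (fderiv ℝ h) {0}ᶜ :=
    hC.continuousOn_fderiv_of_isOpen Pool.Agent.Helper62.Mink.isOpen_ne (by simp)
  exact h1.comp_continuous (consE_contDiff x).continuous (fun z => consE_ne hx z)

lemma cont_h {m : ℕ} {h : E (m + 2) → ℝ} (hC : ContDiffOn ℝ ∞ h {0}ᶜ) {x : ℝ} (hx : 0 < x) :
    Continuous (fun z : E (m + 1) => h (consE x z)) :=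
  hC.continuousOn.comp_continuous (consE_contDiff x).continuous (fun z => consE_ne hx z)

/-- the vector `z ↦ z - z_0 e_0` -/
noncomputable def pz {m : ℕ} (z : E (m + 1)) : E (m + 1) :=
  z - z 0 • EuclideanSpace.single 0 1

lemma pz_cont {m : ℕ} : Continuous (fun z : E (m + 1) => pz z) := by
  unfold pz; fun_prop

/-- the reflection in the line of `e_0` -/
noncomputable def rf (m : ℕ) : E (m + 1) ≃ₗᵢ[ℝ] E (m + 1) :=
  (Submodule.span ℝ {(EuclideanSpace.single 0 1 : E (m + 1))}).reflection

lemma rf_apply {m : ℕ} (z : E (m + 1)) :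
    rf m z = (2 * z 0) • (EuclideanSpace.single 0 1 : E (m + 1)) - z := by
  unfold rf
  rw [Submodule.reflection_singleton_apply]
  congr 1
  simp only [EuclideanSpace.inner_single_left, map_one, one_mul, EuclideanSpace.norm_single,
    norm_one, RCLike.ofReal_real_eq_id, id_eq, one_pow, div_one]
  rw [two_nsmul, two_mul, add_smul]

lemma si_add {m : ℕ} (a b : E (m + 1) → ℝ) (ha : Continuous a) (hb : Continuous b) :
    SI (fun z => a z + b z) = SI a + SI b := by
  unfold SI
  exact integral_add (sphere_integrable ha.continuousOn) (sphere_integrable hb.continuousOn)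

lemma si_mul {m : ℕ} (c : ℝ) (a : E (m + 1) → ℝ) :
    SI (fun z => c * a z) = c * SI a := by
  unfold SI
  exact integral_const_mul _ _

theorem hQN (hID : StID) : StQN := by
  intro m h hh hC x hx
  set φ : E (m + 1) → ℝ := fun z => h (consE x z) with hφ
  have hφs : ContDiffOn ℝ 1 φ {0}ᶜ := by
    have h1 : ContDiffOn ℝ ∞ φ univ :=
      hC.comp (consE_contDiff x).contDiffOn (fun z _ => consE_ne hx z)
    exact (h1.mono (subset_univ _)).of_le (by simp)
  have cφ : Continuous φ := cont_h hC hx
  have cD := cont_grad (m := m) hC hx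
  have cz : Continuous (fun z : E (m + 1) => z 0) := by fun_prop
  have cP : Continuous (fun z : E (m + 1) => fderiv ℝ h (consE x z) (po m)) :=
    cD.clm_apply continuous_const
  -- the function `T`
  set T : E (m + 1) → ℝ := fun z => fderiv ℝ h (consE x z) (cL (m + 1) (pz z)) with hT
  have cT : Continuous T := cD.clm_apply ((cL (m + 1)).continuous.comp pz_cont)
  have eid := hID m φ hφs
  -- the integrand of ID
  set I : E (m + 1) → ℝ := fun z => (1 - ((m : ℝ) + 1) * z 0 ^ 2) * φ z - z 0 ^ 2 * fderiv ℝ φ z z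
      + z 0 * fderiv ℝ φ z (EuclideanSpace.single 0 1) with hI
  have hI' : I = fun z => (1 - ((m : ℝ) + 1) * z 0 ^ 2) * φ z
      - z 0 ^ 2 * fderiv ℝ h (consE x z) (cL (m + 1) z)
      + z 0 * fderiv ℝ h (consE x z) (cL (m + 1) (EuclideanSpace.single 0 1)) := by
    funext z
    simp only [hI, hφ, fderiv_phi hC hx]
  have cI : Continuous I := by
    rw [hI']
    refine ((((continuous_const.sub (continuous_const.mul (cz.pow 2))).mul cφ).sub
      ((cz.pow 2).mul (cD.clm_apply (cL (m + 1)).continuous))).add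
      (cz.mul (cD.clm_apply continuous_const)))
  -- pointwise identity
  have key : ∀ z : E (m + 1), 2 * (φ z - z 0 ^ 2 * φ z)
      - x * (fderiv ℝ h (consE x z) (po m) - z 0 ^ 2 * fderiv ℝ h (consE x z) (po m))
      - m * (z 0 ^ 2 * φ z) = T z + I z := by
    intro z
    have e1 := euler hh ((cda hC (consE_ne hx z)).differentiableAt (by simp))
    have e2 : fderiv ℝ h (consE x z) (consE x z)
        = x * fderiv ℝ h (consE x z) (po m) + fderiv ℝ h (consE x z) (cL (m + 1) z) := by
      conv_lhs => arg 2; rw [consE_eq x z]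
      rw [map_add, map_smul, smul_eq_mul]
    rw [e2] at e1
    have e3 : T z = fderiv ℝ h (consE x z) (cL (m + 1) z)
        - z 0 * fderiv ℝ h (consE x z) (cL (m + 1) (EuclideanSpace.single 0 1)) := by
      simp only [hT, pz, map_sub, map_smul, smul_eq_mul]
    rw [e3, hI']
    simp only [hφ]
    linear_combination (-(1 - z 0 ^ 2)) * e1
  have esum : 2 * (av h x - bv h x) - x * (av1 h x - bv1 h x) - m * bv h x = SI T + SI I := by
    rw [← si_add T I cT cI]
    have e0 : (fun z => T z + I z) = fun z : E (m + 1) => (2 * φ z + (-2) * (z 0 ^ 2 * φ z))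
      + (((-x) * fderiv ℝ h (consE x z) (po m) + x * (z 0 ^ 2 * fderiv ℝ h (consE x z) (po m)))
      + (-(m : ℝ)) * (z 0 ^ 2 * φ z)) := by
      funext z
      rw [← key z]; ring
    have c1 : Continuous (fun z : E (m + 1) => z 0 ^ 2 * φ z) := (cz.pow 2).mul cφ
    have c2 : Continuous (fun z : E (m + 1) => z 0 ^ 2 * fderiv ℝ h (consE x z) (po m)) :=
      (cz.pow 2).mul cP
    have k1 : Continuous (fun z : E (m + 1) => 2 * φ z) := continuous_const.mul cφ
    have k2 : Continuous (fun z : E (m + 1) => (-2) * (z 0 ^ 2 * φ z)) := continuous_const.mul c1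
    have k3 : Continuous (fun z : E (m + 1) => (-x) * fderiv ℝ h (consE x z) (po m)) :=
      continuous_const.mul cP
    have k4 : Continuous (fun z : E (m + 1) => x * (z 0 ^ 2 * fderiv ℝ h (consE x z) (po m))) :=
      continuous_const.mul c2
    have k5 : Continuous (fun z : E (m + 1) => (-(m : ℝ)) * (z 0 ^ 2 * φ z)) :=
      continuous_const.mul c1
    rw [e0, si_add (fun z : E (m + 1) => 2 * φ z + (-2) * (z 0 ^ 2 * φ z))
        (fun z : E (m + 1) => ((-x) * fderiv ℝ h (consE x z) (po m)
          + x * (z 0 ^ 2 * fderiv ℝ h (consE x z) (po m))) + (-(m : ℝ)) * (z 0 ^ 2 * φ z))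
        (k1.add k2) ((k3.add k4).add k5),
      si_add (fun z : E (m + 1) => 2 * φ z) (fun z : E (m + 1) => (-2) * (z 0 ^ 2 * φ z)) k1 k2,
      si_add (fun z : E (m + 1) => (-x) * fderiv ℝ h (consE x z) (po m)
          + x * (z 0 ^ 2 * fderiv ℝ h (consE x z) (po m)))
        (fun z : E (m + 1) => (-(m : ℝ)) * (z 0 ^ 2 * φ z)) (k3.add k4) k5,
      si_add (fun z : E (m + 1) => (-x) * fderiv ℝ h (consE x z) (po m))
        (fun z : E (m + 1) => x * (z 0 ^ 2 * fderiv ℝ h (consE x z) (po m))) k3 k4,
      si_mul, si_mul, si_mul, si_mul, si_mul]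
    simp only [av, bv, av1, bv1, hφ]
    ring
  have eI : SI I = 0 := eid
  rw [esum, eI, add_zero]
  -- reflection
  have er : SI (fun z => T (rf m z)) = SI T := by
    unfold SI
    exact sphere_integral_comp (rf m) T
  have e2 : 2 * SI T = SI (fun z => T z + T (rf m z)) := by
    rw [si_add T (fun z => T (rf m z)) cT (cT.comp (rf m).continuous), er]; ring
  have hpos : 0 ≤ SI (fun z => T z + T (rf m z)) := by
    unfold SI
    refine integral_nonneg fun w => ?_
    show 0 ≤ T (w : E (m + 1)) + T (rf m w)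
    set z : E (m + 1) := (w : E (m + 1)) with hz
    set z' : E (m + 1) := rf m z with hz'
    have hz0 : z' 0 = z 0 := by
      rw [hz', rf_apply]; simp; ring
    have hp1 : (2 : ℝ) • pz z = z - z' := by
      rw [hz', rf_apply, pz]
      module
    have hp2 : (2 : ℝ) • pz z' = -(z - z') := by
      rw [pz, hz0, hz', rf_apply]
      module
    have d1 := (cda hC (consE_ne hx z)).differentiableAt (show (∞ : WithTop ℕ∞) ≠ 0 by simp)
    have d2 := (cda hC (consE_ne hx z')).differentiableAt (show (∞ : WithTop ℕ∞) ≠ 0 by simp)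
    have hw : cL (m + 1) (z - z') = consE x z - consE x z' := by
      rw [consE_eq x z, consE_eq x z', map_sub]; abel
    have t1 : 2 * T z = fderiv ℝ h (consE x z) (consE x z) - fderiv ℝ h (consE x z) (consE x z') := by
      rw [← map_sub, ← hw, ← hp1, map_smul, map_smul, smul_eq_mul]
    have t2 : 2 * T z' = fderiv ℝ h (consE x z') (consE x z')
        - fderiv ℝ h (consE x z') (consE x z) := by
      have : consE x z' - consE x z = cL (m + 1) (-(z - z')) := by
        rw [map_neg, hw]; abel
      rw [← map_sub, this, ← hp2, map_smul, map_smul, smul_eq_mul]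
    have g1 := grad_le hh d1 (consE x z')
    have g2 := grad_le hh d2 (consE x z)
    rw [euler hh d1] at t1
    rw [euler hh d2] at t2
    linarith
  linarith

end Pool.Agent.Helper17.MU
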